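import Pool.Agent.Helper45.AM.GoalsE

/-!
# AM-E7: the condition (U) by induction on the number of syllables
-/

namespace Pool.Agent.Helper96.AM

open Pool.Agent.Helper45.AM

theorem h_e_7 : E_7 := by
  intro W h a sl h8 hE
  classical
  have hfin : ∀ p : W × W, {u | (h p.1 p.2 u).coeff (a u) ≠ 0}.Finite := by
    intro p
    refine (Finset.finite_toSet (h p.1 p.2).support).subset fun u hu => ?_
    rw [Finset.mem_coe, Finsupp.mem_support_iff]
    intro h0
    apply hu
    show (h p.1 p.2 u).coeff (a u) = 0
    rw [h0]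
    simp
  have hsum : ∀ (lam : W × W →₀ ℤ) (z : W),
      (lam.sum fun p m => m * (h p.1 p.2 z).coeff (a z)) =
        Finsupp.linearCombination ℤ (fun p : W × W => (h p.1 p.2 z).coeff (a z)) lam := by
    intro lam z
    rw [Finsupp.linearCombination_apply]
    rfl
  suffices key : ∀ (k : ℕ) (g : W), sl g = k → ∃ lam : W × W →₀ ℤ, ∀ z,
      Finsupp.linearCombination ℤ (fun p : W × W => (h p.1 p.2 z).coeff (a z)) lam =
        if z = g then 1 else 0 by
    intro g
    obtain ⟨lam, hl⟩ := key (sl g) g rfl
    refine ⟨lam, ?_, fun z hz => ?_⟩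
    · rw [hsum, hl g, if_pos rfl]
    · rw [hsum, hl z, if_neg hz]
  intro k
  induction k using Nat.strong_induction_on with
  | _ k ih =>
    intro g hg
    obtain ⟨lam₀, e1, e2, e3⟩ := hE g
    obtain ⟨nu, hnu⟩ : ∃ nu : W → ℤ, nu = fun z =>
      Finsupp.linearCombination ℤ (fun p : W × W => (h p.1 p.2 z).coeff (a z)) lam₀ := ⟨_, rfl⟩
    have n1 : nu g = 1 := by
      rw [hnu]
      show Finsupp.linearCombination ℤ _ lam₀ = 1
      rw [← hsum, e2]
    have n2 : ∀ u, nu u ≠ 0 → u ≠ g → sl u < sl g := by
      intro u hu hug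
      by_contra hlt
      apply hu
      rw [hnu]
      show Finsupp.linearCombination ℤ _ lam₀ = 0
      rw [← hsum]
      by_cases ha : a u = a g
      · have := e3 u ha hug (not_lt.1 hlt)
        rw [← ha] at this
        exact this
      · refine Finset.sum_eq_zero fun p hp => ?_
        have h1 : (h p.1 p.2 u).coeff (a u) = 0 := by
          by_contra h2
          exact ha ((h8 _ _ _ h2).symm.trans (e1 p hp))
        show lam₀ p * (h p.1 p.2 u).coeff (a u) = 0
        rw [h1, mul_zero]
    have nfin : {u | nu u ≠ 0}.Finite := by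
      refine ((Finset.finite_toSet lam₀.support).biUnion fun p _ => hfin p).subset fun u hu => ?_
      by_contra hcon
      apply hu
      rw [hnu]
      show Finsupp.linearCombination ℤ _ lam₀ = 0
      rw [← hsum]
      refine Finset.sum_eq_zero fun p hp => ?_
      have h1 : (h p.1 p.2 u).coeff (a u) = 0 := by
        by_contra h2
        exact hcon (Set.mem_biUnion (Finset.mem_coe.2 hp) h2)
      show lam₀ p * (h p.1 p.2 u).coeff (a u) = 0
      rw [h1, mul_zero]
    have hlam : ∀ u, nu u ≠ 0 → u ≠ g → ∃ lam : W × W →₀ ℤ, ∀ z,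
        Finsupp.linearCombination ℤ (fun p : W × W => (h p.1 p.2 z).coeff (a z)) lam =
          if z = u then 1 else 0 := fun u hu hug => ih (sl u) (hg ▸ n2 u hu hug) u rfl
    choose! lamf hlamf using hlam
    refine ⟨lam₀ - ∑ u ∈ nfin.toFinset.erase g, nu u • lamf u, fun z => ?_⟩
    rw [map_sub, map_sum]
    have h1 : Finsupp.linearCombination ℤ (fun p : W × W => (h p.1 p.2 z).coeff (a z)) lam₀ =
        nu z := by rw [hnu]
    have h2 : ∑ u ∈ nfin.toFinset.erase g,
        Finsupp.linearCombination ℤ (fun p : W × W => (h p.1 p.2 z).coeff (a z))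
          (nu u • lamf u) = ∑ u ∈ nfin.toFinset.erase g, if z = u then nu u else 0 := by
      refine Finset.sum_congr rfl fun u hu => ?_
      rw [Finset.mem_erase, Set.Finite.mem_toFinset] at hu
      rw [map_smul, hlamf u hu.2 hu.1 z, smul_eq_mul]
      split_ifs <;> simp
    rw [h1, h2, Finset.sum_ite_eq]
    by_cases hz : z = g
    · subst hz
      simp [n1]
    · rw [if_neg hz]
      by_cases hz0 : nu z = 0
      · simp [hz0]
      · have : z ∈ nfin.toFinset.erase g := by
          rw [Finset.mem_erase, Set.Finite.mem_toFinset]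
          exact ⟨hz, hz0⟩
        rw [if_pos this, sub_self]

end Pool.Agent.Helper96.AM
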